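import Pool.Agent.H18.INS.Min

/-!
Blow-ups of triangle-free graphs of large chromatic number.
-/

set_option autoImplicit false

namespace Pool.Agent.H18.INS

open SimpleGraph

/-- The shift graph on pairs from `Fin N`. -/
def shiftG (N : ℕ) : SimpleGraph (Fin N × Fin N) where
  Adj p q := p.1 < p.2 ∧ q.1 < q.2 ∧ (p.2 = q.1 ∨ q.2 = p.1)
  symm := ⟨by
    rintro p q ⟨h1, h2, h3⟩
    exact ⟨h2, h1, h3.symm⟩⟩
  loopless := ⟨by
    rintro p ⟨h1, h2, h3⟩
    rcases h3 with h3 | h3
    · exact absurd h1 (by rw [h3]; exact lt_irrefl _)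
    · exact absurd h1 (by rw [h3]; exact lt_irrefl _)⟩

theorem shiftG_cliqueFree (N : ℕ) : (shiftG N).CliqueFree 3 := by
  intro s hs
  rw [SimpleGraph.is3Clique_iff] at hs
  obtain ⟨a, b, c, hab, hac, hbc, -⟩ := hs
  obtain ⟨h1, h2, h3⟩ := hab
  obtain ⟨-, h4, h5⟩ := hac
  obtain ⟨-, -, h6⟩ := hbc
  simp only [Fin.lt_def, Fin.ext_iff] at *
  omega

theorem shiftG_not_colorable {N k : ℕ} (hk : 2 ^ k < N) : ¬ (shiftG N).Colorable k := by
  rintro ⟨C⟩
  let S : Fin N → Finset (Fin k) := fun i =>
    (Finset.univ.filter (fun j : Fin N => i < j)).image (fun j => C (i, j))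
  have hinj : Function.Injective S := by
    intro i j hij
    by_contra hne
    have key : ∀ i j : Fin N, i < j → S i ≠ S j := by
      intro i j hlt h
      have hmem : C (i, j) ∈ S i := by
        simp only [S, Finset.mem_image, Finset.mem_filter, Finset.mem_univ, true_and]
        exact ⟨j, hlt, rfl⟩
      rw [h] at hmem
      simp only [S, Finset.mem_image, Finset.mem_filter, Finset.mem_univ, true_and] at hmem
      obtain ⟨l, hl, hl2⟩ := hmem
      have hadj : (shiftG N).Adj (i, j) (j, l) := ⟨hlt, hl, Or.inl rfl⟩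
      exact C.valid hadj hl2.symm
    rcases lt_or_gt_of_ne hne with h | h
    · exact key i j h hij
    · exact key j i h hij.symm
  have hcard := Fintype.card_le_of_injective S hinj
  rw [Fintype.card_fin, Fintype.card_finset, Fintype.card_fin] at hcard
  omega

/-- A smallest triangle-free graph which is not `k`-colourable. -/
theorem exists_crit (k : ℕ) : ∃ n : ℕ, ∃ G : SimpleGraph (Fin n), G.CliqueFree 3 ∧
    ¬ G.Colorable k ∧ ∀ s : Set (Fin n), s ≠ Set.univ → (G.induce s).Colorable k := by
  classical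
  let P : ℕ → Prop := fun n => ∃ G : SimpleGraph (Fin n), G.CliqueFree 3 ∧ ¬ G.Colorable k
  have hP : ∃ n, P n := by
    let N := 2 ^ k + 1
    let e : Fin N × Fin N ≃ Fin (N * N) := finProdFinEquiv
    refine ⟨N * N, (shiftG N).map e.toEmbedding, ?_, ?_⟩
    · have i := (SimpleGraph.Iso.map e (shiftG N)).symm
      exact (shiftG_cliqueFree N).comap ⟨i.toCopy⟩
    · intro h
      exact shiftG_not_colorable (Nat.lt_succ_self _)
        (h.of_hom (SimpleGraph.Iso.map e (shiftG N)).toHom)
  obtain ⟨G, hG, hG4⟩ := Nat.find_spec hP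
  refine ⟨Nat.find hP, G, hG, hG4, ?_⟩
  intro s hs
  by_contra hcon
  have hlt : Fintype.card s < Nat.find hP := by
    have h1 : Fintype.card s < Fintype.card (Fin (Nat.find hP)) := by
      obtain ⟨x, hx⟩ := (Set.ne_univ_iff_exists_notMem s).1 hs
      exact Fintype.card_subtype_lt hx
    rw [Fintype.card_fin] at h1
    exact h1
  apply Nat.find_min hP hlt
  let e : s ≃ Fin (Fintype.card s) := Fintype.equivFin s
  refine ⟨(G.induce s).map e.toEmbedding, ?_, ?_⟩
  · have i := (SimpleGraph.Iso.map e (G.induce s)).symm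
    exact (hG.comap ⟨(SimpleGraph.Embedding.induce s).toCopy⟩).comap ⟨i.toCopy⟩
  · intro h
    exact hcon (h.of_hom (SimpleGraph.Iso.map e (G.induce s)).toHom)

/-- In a smallest such graph a function constant along edges is constant. -/
theorem crit_const {n k : ℕ} {G : SimpleGraph (Fin n)} (hG4 : ¬ G.Colorable k)
    (hmin : ∀ s : Set (Fin n), s ≠ Set.univ → (G.induce s).Colorable k)
    {γ : Type} (p : Fin n → γ) (hp : ∀ u v, G.Adj u v → p u = p v) (a b : Fin n) : p a = p b := by
  classical
  by_contra hne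
  let s : Set (Fin n) := {x | p x = p a}
  have hs : s ≠ Set.univ := by
    intro h
    have : b ∈ s := by rw [h]; trivial
    exact hne this.symm
  have hs' : sᶜ ≠ Set.univ := by
    intro h
    have : a ∈ sᶜ := by rw [h]; trivial
    exact this rfl
  obtain ⟨C1⟩ := hmin s hs
  obtain ⟨C2⟩ := hmin sᶜ hs'
  apply hG4
  refine ⟨SimpleGraph.Coloring.mk (fun x => if hx : x ∈ s then C1 ⟨x, hx⟩ else C2 ⟨x, hx⟩) ?_⟩
  intro u v huv
  have hpuv := hp u v huv
  by_cases hu : u ∈ s
  · have hv : v ∈ s := by
      have h1 : p u = p a := hu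
      show p v = p a
      rw [← hpuv, h1]
    simp only [hu, hv, dif_pos]
    exact C1.valid (by simpa using huv)
  · have hv : v ∉ s := by
      intro hv
      have h1 : p v = p a := hv
      exact hu (show p u = p a by rw [hpuv, h1])
    simp only [hu, hv, dif_neg, not_false_eq_true]
    exact C2.valid (by simpa using huv)

/-- In a smallest such graph every vertex has a neighbour (`k ≥ 1`). -/
theorem crit_nbr {n k : ℕ} (hk : 0 < k) {G : SimpleGraph (Fin n)} (hG4 : ¬ G.Colorable k)
    (hmin : ∀ s : Set (Fin n), s ≠ Set.univ → (G.induce s).Colorable k) (x : Fin n) :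
    ∃ y, G.Adj x y := by
  classical
  by_contra hcon
  push Not at hcon
  have hall : ∀ y, y = x := by
    intro y
    have h1 := crit_const hG4 hmin (fun z => decide (z = x)) (by
      intro u v huv
      have hu : u ≠ x := by
        rintro rfl
        exact hcon _ huv
      have hv : v ≠ x := by
        rintro rfl
        exact hcon _ huv.symm
      rw [decide_eq_false hu, decide_eq_false hv]) y x
    rw [decide_eq_true rfl] at h1
    exact of_decide_eq_true h1
  apply hG4
  refine ⟨SimpleGraph.Coloring.mk (fun _ => ⟨0, hk⟩) ?_⟩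
  intro u v huv
  rw [hall u, hall v] at huv
  exact absurd huv (G.loopless.irrefl x)

end Pool.Agent.H18.INS
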