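import Pool.Agent.H18.INS.Blow

/-!
For all `q ≥ 2`, `d ≥ 1` and `t` there is a triangle-free graph `H` of minimum degree `d` all of
whose minimal `q`-Ramsey graphs have minimum degree at least `t`.
-/

set_option autoImplicit false

namespace Pool.Agent.H18.INS

open SimpleGraph

/-- The blow-up of `G`: every vertex is replaced by `n` independent copies. -/
def blow {a : ℕ} (G : SimpleGraph (Fin a)) (n : ℕ) : SimpleGraph (Fin a × Fin n) :=
  G.comap Prod.fst

theorem blow_adj {a n : ℕ} (G : SimpleGraph (Fin a)) (x y : Fin a × Fin n) :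
    (blow G n).Adj x y ↔ G.Adj x.1 y.1 := Iff.rfl

theorem blow_cliqueFree {a n : ℕ} {G : SimpleGraph (Fin a)} (h : G.CliqueFree 3) :
    (blow G n).CliqueFree 3 := by
  intro s hs
  rw [SimpleGraph.is3Clique_iff] at hs
  obtain ⟨x, y, z, hxy, hxz, hyz, -⟩ := hs
  rw [blow_adj] at hxy hxz hyz
  apply h {x.1, y.1, z.1}
  rw [SimpleGraph.is3Clique_iff]
  exact ⟨_, _, _, hxy, hxz, hyz, rfl⟩

theorem blow_const {a n k : ℕ} (hn : 0 < n) (hk : 0 < k) {G : SimpleGraph (Fin a)}
    (hG4 : ¬ G.Colorable k)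
    (hmin : ∀ s : Set (Fin a), s ≠ Set.univ → (G.induce s).Colorable k)
    (γ : Type) (p : Fin a × Fin n → γ) (hp : ∀ u v, (blow G n).Adj u v → p u = p v)
    (x y : Fin a × Fin n) : p x = p y := by
  have h1 : ∀ (v : Fin a) (i : Fin n), p (v, i) = p (v, ⟨0, hn⟩) := by
    intro v i
    obtain ⟨w, hw⟩ := crit_nbr hk hG4 hmin v
    rw [hp (v, i) (w, ⟨0, hn⟩) hw, hp (v, ⟨0, hn⟩) (w, ⟨0, hn⟩) hw]
  have h2 := crit_const hG4 hmin (fun v => p (v, ⟨0, hn⟩)) (fun u v huv => hp _ _ huv) x.1 y.1
  obtain ⟨v, i⟩ := x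
  obtain ⟨w, j⟩ := y
  rw [h1 v i, h1 w j]
  exact h2

theorem blow_rich {a n q d : ℕ} (hd : 0 < d) (hn : (q + 2) * d ≤ n) {G : SimpleGraph (Fin a)}
    (hG4 : ¬ G.Colorable (q + 2)) (p : Fin a × Fin n → Option (Fin (q + 1)))
    (hp : ∀ u v, (blow G n).Adj u v → p u = p v → p u = none) :
    ∃ g : Fin d ⊕ Fin d → Fin a × Fin n, Function.Injective g ∧
      (∀ u v, (completeBipartiteGraph (Fin d) (Fin d)).Adj u v → (blow G n).Adj (g u) (g v)) ∧
        ∀ u, p (g u) = none := by
  classical
  have hmaj : ∀ v : Fin a, ∃ μ : Option (Fin (q + 1)),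
      d ≤ (Finset.univ.filter (fun i : Fin n => p (v, i) = μ)).card := by
    intro v
    obtain ⟨μ, -, hμ⟩ := Finset.exists_le_card_fiber_of_mul_le_card_of_maps_to
      (s := (Finset.univ : Finset (Fin n))) (t := (Finset.univ : Finset (Option (Fin (q + 1)))))
      (f := fun i => p (v, i)) (n := d) (fun _ _ => Finset.mem_univ _) ⟨none, Finset.mem_univ _⟩
      (by
        rw [Finset.card_univ, Finset.card_univ, Fintype.card_option, Fintype.card_fin,
          Fintype.card_fin]
        exact hn)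
    exact ⟨μ, hμ⟩
  choose μ hμ using hmaj
  have hedge : ∃ u v, G.Adj u v ∧ μ u = μ v := by
    by_contra hcon
    push Not at hcon
    apply hG4
    have hcol : G.Coloring (Option (Fin (q + 1))) :=
      SimpleGraph.Coloring.mk μ (fun {u v} huv => hcon u v huv)
    have h1 := hcol.colorable
    rw [Fintype.card_option, Fintype.card_fin] at h1
    exact h1
  obtain ⟨u, v, huv, hμuv⟩ := hedge
  let e := Finset.orderEmbOfCardLe _ (hμ u)
  have he : ∀ i, p (u, e i) = μ u := fun i =>
    (Finset.mem_filter.1 (Finset.orderEmbOfCardLe_mem _ (hμ u) i)).2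
  let e' := Finset.orderEmbOfCardLe _ (hμ v)
  have he' : ∀ i, p (v, e' i) = μ v := fun i =>
    (Finset.mem_filter.1 (Finset.orderEmbOfCardLe_mem _ (hμ v) i)).2
  have hnone : μ u = none := by
    have h1 := hp (u, e ⟨0, hd⟩) (v, e' ⟨0, hd⟩) huv (by rw [he, he', hμuv])
    rw [he] at h1
    exact h1
  refine ⟨Sum.elim (fun i => (u, e i)) (fun i => (v, e' i)), ?_, ?_, ?_⟩
  · apply Function.Injective.sumElim
    · intro i j hij
      exact e.injective (congrArg Prod.snd hij)
    · intro i j hij
      exact e'.injective (congrArg Prod.snd hij)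
    · intro i j hij
      exact huv.ne (congrArg Prod.fst hij)
  · rintro (i | i) (j | j) hij
    · simp at hij
    · exact huv
    · exact huv.symm
    · simp at hij
  · rintro (i | i)
    · exact (he i).trans hnone
    · exact (he' i).trans (hμuv ▸ hnone)

theorem sum_cliqueFree {α β : Type} {G : SimpleGraph α} {H : SimpleGraph β}
    (hG : G.CliqueFree 3) (hH : H.CliqueFree 3) : (G ⊕g H).CliqueFree 3 := by
  classical
  intro s hs
  rw [SimpleGraph.is3Clique_iff] at hs
  obtain ⟨x, y, z, hxy, hxz, hyz, -⟩ := hs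
  rcases x with x | x
  · rcases y with y | y
    · rcases z with z | z
      · apply hG {x, y, z}
        rw [SimpleGraph.is3Clique_iff]
        exact ⟨_, _, _, sum_adj_inl.1 hxy, sum_adj_inl.1 hxz, sum_adj_inl.1 hyz, rfl⟩
      · exact absurd hxz (by simp)
    · exact absurd hxy (by simp)
  · rcases y with y | y
    · exact absurd hxy (by simp)
    · rcases z with z | z
      · exact absurd hxz (by simp)
      · apply hH {x, y, z}
        rw [SimpleGraph.is3Clique_iff]
        exact ⟨_, _, _, sum_adj_inr.1 hxy, sum_adj_inr.1 hxz, sum_adj_inr.1 hyz, rfl⟩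

theorem bip_cliqueFree (d : ℕ) : (completeBipartiteGraph (Fin d) (Fin d)).CliqueFree 3 := by
  intro s hs
  rw [SimpleGraph.is3Clique_iff] at hs
  obtain ⟨x, y, z, hxy, hxz, hyz, -⟩ := hs
  rcases x with x | x <;> rcases y with y | y <;> rcases z with z | z <;> simp_all

theorem bip_degree (d : ℕ) (x : Fin d ⊕ Fin d)
    [Fintype ((completeBipartiteGraph (Fin d) (Fin d)).neighborSet x)] :
    (completeBipartiteGraph (Fin d) (Fin d)).degree x = d := by
  classical
  rcases x with x | x
  · have h1 : (completeBipartiteGraph (Fin d) (Fin d)).neighborFinset (Sum.inl x) =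
        (Finset.univ : Finset (Fin d)).map Function.Embedding.inr := by
      ext y
      rcases y with y | y <;> simp
    rw [← SimpleGraph.card_neighborFinset_eq_degree, h1, Finset.card_map, Finset.card_univ,
      Fintype.card_fin]
  · have h1 : (completeBipartiteGraph (Fin d) (Fin d)).neighborFinset (Sum.inr x) =
        (Finset.univ : Finset (Fin d)).map Function.Embedding.inl := by
      ext y
      rcases y with y | y <;> simp
    rw [← SimpleGraph.card_neighborFinset_eq_degree, h1, Finset.card_map, Finset.card_univ,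
      Fintype.card_fin]

theorem sum_degree_inl {α β : Type} (G : SimpleGraph α)
    (H : SimpleGraph β) (x : α) [Fintype ((G ⊕g H).neighborSet (Sum.inl x))]
    [Fintype (G.neighborSet x)] : (G ⊕g H).degree (Sum.inl x) = G.degree x := by
  classical
  have h1 : (G ⊕g H).neighborFinset (Sum.inl x) =
      (G.neighborFinset x).map Function.Embedding.inl := by
    ext y
    rcases y with y | y <;> simp
  rw [← SimpleGraph.card_neighborFinset_eq_degree, h1, Finset.card_map,
    SimpleGraph.card_neighborFinset_eq_degree]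

theorem sum_degree_inr {α β : Type} (G : SimpleGraph α)
    (H : SimpleGraph β) (x : β) [Fintype ((G ⊕g H).neighborSet (Sum.inr x))]
    [Fintype (H.neighborSet x)] : (G ⊕g H).degree (Sum.inr x) = H.degree x := by
  classical
  have h1 : (G ⊕g H).neighborFinset (Sum.inr x) =
      (H.neighborFinset x).map Function.Embedding.inr := by
    ext y
    rcases y with y | y <;> simp
  rw [← SimpleGraph.card_neighborFinset_eq_degree, h1, Finset.card_map,
    SimpleGraph.card_neighborFinset_eq_degree]

open scoped Classical in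
/-- The main theorem. -/
theorem main (q d t : ℕ) (hq : 2 ≤ q) (hd : 1 ≤ d) :
    ∃ (V : Type) (_ : Fintype V) (H : SimpleGraph V), H.CliqueFree 3 ∧ H.minDegree = d ∧
      t ≤ sInf {e : ℕ | ∃ (m : ℕ) (G : SimpleGraph (Fin m)),
        ((∀ c : G.EdgeLabeling (Fin q), ∃ i : Fin q, H.IsContained (c.labelGraph i)) ∧
          ∀ G' : G.Subgraph, G' ≠ ⊤ →
            ¬ ∀ c : G'.coe.EdgeLabeling (Fin q), ∃ i : Fin q, H.IsContained (c.labelGraph i)) ∧
          G.minDegree = e} := by
  have hq0 : 0 < q := by omega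
  obtain ⟨a, F0, hF3, hF4, hmin⟩ := exists_crit (q + 2)
  let n := (q + 2) * d + t + 1
  have hn0 : 0 < n := by omega
  let F := blow F0 n
  let J := completeBipartiteGraph (Fin d) (Fin d)
  have ha : q + 2 < a := by
    by_contra hle
    push Not at hle
    apply hF4
    exact (SimpleGraph.colorable_of_fintype F0).mono (by simpa using hle)
  have hcard : q < Fintype.card (Fin a × Fin n) := by
    rw [Fintype.card_prod, Fintype.card_fin, Fintype.card_fin]
    have h1 : a * 1 ≤ a * n := Nat.mul_le_mul_left a hn0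
    omega
  have hsum : ∀ {β : Type} (G : SimpleGraph β), Ram q F G ↔ Ram q (F ⊕g J) G := by
    intro β G
    constructor
    · intro h
      exact ram_sum hq hcard (blow_const hn0 (by omega) hF4 hmin)
        (fun p hp => blow_rich (by omega) (by omega) hF4 p hp) G h
    · intro h
      exact ram_target Sum.inl Sum.inl_injective (fun x y hxy => sum_adj_inl.2 hxy) h
  have hnbr : ∀ u : Fin a × Fin n, ∃ T : Finset (Fin a × Fin n), n ≤ T.card ∧
      ∀ x ∈ T, F.Adj u x := by
    intro u
    obtain ⟨w, hw⟩ := crit_nbr (by omega) hF4 hmin u.1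
    refine ⟨(Finset.univ : Finset (Fin n)).image (fun i => (w, i)), ?_, ?_⟩
    · rw [Finset.card_image_of_injective _ (fun i j hij => congrArg Prod.snd hij),
        Finset.card_univ, Fintype.card_fin]
    · intro x hx
      obtain ⟨i, -, rfl⟩ := Finset.mem_image.1 hx
      exact hw
  have hFdeg : ∀ u, n ≤ F.degree u := by
    intro u
    obtain ⟨T, hT, hT2⟩ := hnbr u
    rw [← SimpleGraph.card_neighborFinset_eq_degree]
    refine hT.trans (Finset.card_le_card ?_)
    intro x hx
    rw [SimpleGraph.mem_neighborFinset]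
    exact hT2 x hx
  have hne : Nonempty ((Fin a × Fin n) ⊕ (Fin d ⊕ Fin d)) := ⟨Sum.inr (Sum.inl ⟨0, hd⟩)⟩
  refine ⟨(Fin a × Fin n) ⊕ (Fin d ⊕ Fin d), inferInstance, F ⊕g J,
    sum_cliqueFree (blow_cliqueFree hF3) (bip_cliqueFree d), ?_, ?_⟩
  · apply le_antisymm
    · refine ((F ⊕g J).minDegree_le_degree (Sum.inr (Sum.inl ⟨0, hd⟩))).trans ?_
      rw [sum_degree_inr, bip_degree]
    · apply SimpleGraph.le_minDegree_of_forall_le_degree
      rintro (x | x)
      · rw [sum_degree_inl]
        refine le_trans ?_ (hFdeg x)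
        have h1 : 1 * d ≤ (q + 2) * d := Nat.mul_le_mul_right d (by omega)
        omega
      · rw [sum_degree_inr, bip_degree]
  · apply le_csInf
    · obtain ⟨m, G, hG, hG2⟩ := exists_minimal hq0 (F ⊕g J)
      refine ⟨_, m, G, ⟨(ram_iff hq0 _ _).2 hG, ?_⟩, rfl⟩
      intro G' hG' h
      exact hG2 G' hG' ((ram_iff hq0 _ _).1 h)
    · rintro e ⟨m, G, ⟨hG, hG2⟩, rfl⟩
      have hG' : Ram q F G := (hsum G).2 ((ram_iff hq0 _ _).1 hG)
      have hG2' : ∀ G' : G.Subgraph, G' ≠ ⊤ → ¬ Ram q F G'.coe := by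
        intro G' hG' h
        exact hG2 G' hG' ((ram_iff hq0 _ _).2 ((hsum _).1 h))
      have hm : Nonempty (Fin m) := by
        obtain ⟨i, f, -⟩ := hG' (fun _ => ⟨0, hq0⟩)
        exact ⟨f (⟨0, by omega⟩, ⟨0, hn0⟩)⟩
      apply SimpleGraph.le_minDegree_of_forall_le_degree
      intro v
      have h1 := deg_lower hq0 (D := n) (by omega) hnbr hG' hG2' v (G.neighborFinset v)
        (fun x => SimpleGraph.mem_neighborFinset G v x)
      rw [SimpleGraph.card_neighborFinset_eq_degree] at h1
      have h2 : 1 * (n - 1) ≤ q * (n - 1) := Nat.mul_le_mul_right _ (by omega)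
      omega

theorem minDeg_iso {V W : Type} [Fintype V] [Fintype W] {G : SimpleGraph V} {G' : SimpleGraph W}
    (i1 : DecidableRel G.Adj) (i2 : DecidableRel G'.Adj) (f : G ≃g G') :
    G.minDegree = G'.minDegree :=
  f.minDegree_eq

open scoped Classical in
/-- The main theorem for graphs on `Fin n`. -/
theorem main_fin (q d t : ℕ) (hq : 2 ≤ q) (hd : 1 ≤ d) :
    ∃ (n : ℕ) (H : SimpleGraph (Fin n)), H.CliqueFree 3 ∧ H.minDegree = d ∧
      t ≤ sInf {e : ℕ | ∃ (m : ℕ) (G : SimpleGraph (Fin m)),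
        ((∀ c : G.EdgeLabeling (Fin q), ∃ i : Fin q, H.IsContained (c.labelGraph i)) ∧
          ∀ G' : G.Subgraph, G' ≠ ⊤ →
            ¬ ∀ c : G'.coe.EdgeLabeling (Fin q), ∃ i : Fin q, H.IsContained (c.labelGraph i)) ∧
          G.minDegree = e} := by
  obtain ⟨V, hV, H, h3, hdeg, ht⟩ := main q d t hq hd
  let e : V ≃ Fin (Fintype.card V) := Fintype.equivFin V
  let φ : H ≃g H.map e.toEmbedding := SimpleGraph.Iso.map e H
  have hc : ∀ {β : Type} (X : SimpleGraph β),
      (H.map e.toEmbedding).IsContained X ↔ H.IsContained X := by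
    intro β X
    exact SimpleGraph.isContained_congr_left φ.symm
  refine ⟨Fintype.card V, H.map e.toEmbedding, ?_, ?_, ?_⟩
  · exact h3.comap ⟨φ.symm.toCopy⟩
  · rw [← hdeg]
    exact minDeg_iso _ _ φ.symm
  · simp only [hc]
    exact ht

end Pool.Agent.H18.INS
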