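import Pool.Agent.H18.INS.Ram

/-!
The trivial lower bound for degrees in minimal Ramsey graphs, Ramsey's theorem for `q` colours, and
the existence of minimal Ramsey graphs.
-/

set_option autoImplicit false

namespace Pool.Agent.H18.INS

open SimpleGraph

/-- A finite set with at most `q * k` elements can be coloured with `q` colours, each used at most
`k` times. -/
theorem exists_balanced {β : Type} {q k : ℕ} (hq : 0 < q) (N : Finset β) (hN : N.card ≤ q * k) :
    ∃ κ : β → Fin q, ∀ (i : Fin q) (T : Finset β), T ⊆ N → (∀ x ∈ T, κ x = i) → T.card ≤ k := by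
  classical
  rcases Nat.eq_zero_or_pos k with hk | hk
  · refine ⟨fun _ => ⟨0, hq⟩, ?_⟩
    intro i T hT _
    have h1 := Finset.card_le_card hT
    subst hk
    omega
  · have hlt : ∀ x : N, (N.equivFin x).val / k < q := by
      intro x
      have h1 := (N.equivFin x).isLt
      rw [Nat.div_lt_iff_lt_mul hk]
      omega
    refine ⟨fun y => if h : y ∈ N then ⟨(N.equivFin ⟨y, h⟩).val / k, hlt ⟨y, h⟩⟩ else ⟨0, hq⟩, ?_⟩
    intro i T hT hTi
    let e : β → ℕ := fun y => if h : y ∈ N then (N.equivFin ⟨y, h⟩).val % k else 0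
    have h1 : (T.image e).card = T.card := by
      apply Finset.card_image_of_injOn
      intro x hx y hy hxy
      have hxN := hT hx
      have hyN := hT hy
      have hx2 := hTi x hx
      have hy2 := hTi y hy
      simp only [hxN, dif_pos] at hx2
      simp only [hyN, dif_pos] at hy2
      simp only [e, hxN, hyN, dif_pos] at hxy
      have hx3 := congrArg Fin.val hx2
      have hy3 := congrArg Fin.val hy2
      have h2 : (N.equivFin ⟨x, hxN⟩).val = (N.equivFin ⟨y, hyN⟩).val := by
        rw [← Nat.div_add_mod (N.equivFin ⟨x, hxN⟩).val k,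
          ← Nat.div_add_mod (N.equivFin ⟨y, hyN⟩).val k, hxy]
        simp only at hx3 hy3
        rw [hx3, hy3]
      have h3 := N.equivFin.injective (Fin.ext h2)
      exact congrArg Subtype.val h3
    rw [← h1]
    have h4 : T.image e ⊆ Finset.range k := by
      intro z hz
      obtain ⟨y, hy, rfl⟩ := Finset.mem_image.1 hz
      have hyN := hT hy
      simp only [e, hyN, dif_pos, Finset.mem_range]
      exact Nat.mod_lt _ hk
    have h5 := Finset.card_le_card h4
    rw [Finset.card_range] at h5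
    exact h5

/-- A colouring of a subgraph without one-coloured copy, extended to all pairs. -/
theorem not_ram_coe {α β : Type} {q : ℕ} (hq : 0 < q) {F : SimpleGraph α} {G : SimpleGraph β}
    (G' : G.Subgraph) (h : ¬ Ram q F G'.coe) :
    ∃ c : Sym2 β → Fin q, ∀ (i : Fin q) (f : α → β), Function.Injective f →
      (∀ u, f u ∈ G'.verts) → (∀ u v, F.Adj u v → G'.Adj (f u) (f v) ∧ c s(f u, f v) = i) →
      False := by
  classical
  unfold Ram at h
  push Not at h
  obtain ⟨c0, hc0⟩ := h
  refine ⟨fun e => if h : ∃ e0 : Sym2 G'.verts, e0.map Subtype.val = e then c0 h.choose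
    else ⟨0, hq⟩, ?_⟩
  intro i f hf hmem hadj
  apply hc0 i (fun u => ⟨f u, hmem u⟩)
  refine ⟨?_, ?_⟩
  · intro u v huv
    exact hf (congrArg Subtype.val huv)
  · intro u v huv
    obtain ⟨h1, h2⟩ := hadj u v huv
    refine ⟨h1, ?_⟩
    have h3 : ∃ e0 : Sym2 G'.verts, e0.map Subtype.val = s(f u, f v) :=
      ⟨s(⟨f u, hmem u⟩, ⟨f v, hmem v⟩), rfl⟩
    simp only [h3, dif_pos] at h2
    rw [← h2]
    congr 1
    apply Sym2.map.injective Subtype.val_injective
    rw [h3.choose_spec]
    rfl

/-- Every vertex of a minimal Ramsey graph has degree at least `q * (D - 1) + 1`. -/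
theorem deg_lower {α β : Type} [Fintype β] {q D : ℕ} (hq : 0 < q) (hD : 1 ≤ D)
    {F : SimpleGraph α}
    (hF : ∀ u, ∃ T : Finset α, D ≤ T.card ∧ ∀ x ∈ T, F.Adj u x)
    {G : SimpleGraph β} (hR : Ram q F G)
    (hmin : ∀ G' : G.Subgraph, G' ≠ ⊤ → ¬ Ram q F G'.coe) (v : β)
    (N : Finset β) (hN : ∀ x, x ∈ N ↔ G.Adj v x) : q * (D - 1) + 1 ≤ N.card := by
  classical
  by_contra hlt
  have hle : N.card ≤ q * (D - 1) := by omega
  obtain ⟨κ, hκ⟩ := exists_balanced hq N hle
  let G' : G.Subgraph := (⊤ : G.Subgraph).deleteVerts {v}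
  have hne : G' ≠ ⊤ := by
    intro h
    have h1 : v ∈ G'.verts := by
      rw [h]
      trivial
    simp [G'] at h1
  obtain ⟨c, hc⟩ := not_ram_coe hq G' (hmin G' hne)
  let c1 : Sym2 β → Fin q := Sym2.lift ⟨fun x y =>
    if x = v then κ y else if y = v then κ x else c s(x, y), by
      intro x y
      beta_reduce
      by_cases hx : x = v
      · by_cases hy : y = v
        · rw [hx, hy]
        · rw [if_pos hx, if_neg hy, if_pos hx]
      · by_cases hy : y = v
        · rw [if_neg hx, if_pos hy, if_pos hy]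
        · rw [if_neg hx, if_neg hy, if_neg hy, if_neg hx, Sym2.eq_swap]⟩
  have hc1 : ∀ y, c1 s(v, y) = κ y := by
    intro y
    simp only [c1, Sym2.lift_mk, if_true]
  have hc2 : ∀ x y, x ≠ v → y ≠ v → c1 s(x, y) = c s(x, y) := by
    intro x y hx hy
    simp only [c1, Sym2.lift_mk]
    rw [if_neg hx, if_neg hy]
  obtain ⟨i, f, hf, hf2⟩ := hR c1
  by_cases hv : ∃ u, f u = v
  · obtain ⟨u, hu⟩ := hv
    obtain ⟨T, hT, hT2⟩ := hF u
    have h1 := hκ i (T.image f) (by
      intro x hx
      obtain ⟨y, hy, rfl⟩ := Finset.mem_image.1 hx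
      rw [hN, ← hu]
      exact (hf2 _ _ (hT2 y hy)).1) (by
      intro x hx
      obtain ⟨y, hy, rfl⟩ := Finset.mem_image.1 hx
      rw [← hc1, ← hu]
      exact (hf2 _ _ (hT2 y hy)).2)
    rw [Finset.card_image_of_injective _ hf] at h1
    omega
  · push Not at hv
    apply hc i f hf
    · intro u
      simp only [G', Subgraph.deleteVerts_verts, Subgraph.verts_top, Set.mem_sdiff, Set.mem_univ,
        Set.mem_singleton_iff, true_and]
      exact hv u
    · intro u w huw
      obtain ⟨h1, h2⟩ := hf2 u w huw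
      rw [hc2 _ _ (hv u) (hv w)] at h2
      refine ⟨?_, h2⟩
      simp only [G', Subgraph.deleteVerts_adj, Subgraph.verts_top, Set.mem_univ,
        Set.mem_singleton_iff, true_and, Subgraph.top_adj]
      exact ⟨hv u, hv w, h1⟩

/-- Sequences in which the colour of a pair depends on its first element only. -/
theorem exists_seq {q : ℕ} (hq : 0 < q) : ∀ L : ℕ, ∃ N : ℕ, ∀ (V : Type) (S : Finset V)
    (c : Sym2 V → Fin q), N ≤ S.card → ∃ f : Fin L → V, Function.Injective f ∧ (∀ i, f i ∈ S) ∧
      ∃ κ : Fin L → Fin q, ∀ i j, i < j → c s(f i, f j) = κ i := by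
  classical
  intro L
  induction L with
  | zero =>
    exact ⟨0, fun V S c _ => ⟨Fin.elim0, fun i => i.elim0, fun i => i.elim0, Fin.elim0,
      fun i => i.elim0⟩⟩
  | succ L ih =>
    obtain ⟨N, hN⟩ := ih
    refine ⟨q * N + 1, ?_⟩
    intro V S c hS
    obtain ⟨v, hv⟩ : S.Nonempty := Finset.card_pos.1 (by omega)
    have hT : (S.erase v).card = S.card - 1 := Finset.card_erase_of_mem hv
    have hne : (Finset.univ : Finset (Fin q)).Nonempty := ⟨⟨0, hq⟩, Finset.mem_univ _⟩
    obtain ⟨k, -, hk⟩ := Finset.exists_le_card_fiber_of_mul_le_card_of_maps_to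
      (s := S.erase v) (t := (Finset.univ : Finset (Fin q))) (f := fun y => c s(v, y)) (n := N)
      (fun _ _ => Finset.mem_univ _) hne (by
        rw [Finset.card_univ, Fintype.card_fin, hT]
        omega)
    obtain ⟨f, hf, hfm, κ, hκ⟩ := hN V _ c hk
    have hfm' : ∀ i, f i ∈ S ∧ f i ≠ v ∧ c s(v, f i) = k := by
      intro i
      have h1 := Finset.mem_filter.1 (hfm i)
      have h2 := Finset.mem_erase.1 h1.1
      exact ⟨h2.2, h2.1, h1.2⟩
    refine ⟨Fin.cons v f, ?_, ?_, Fin.cons k κ, ?_⟩
    · rw [Fin.cons_injective_iff]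
      refine ⟨?_, hf⟩
      rintro ⟨i, hi⟩
      exact (hfm' i).2.1 hi
    · intro i
      refine Fin.cases ?_ (fun i => ?_) i
      · exact hv
      · exact (hfm' i).1
    · intro i j hij
      refine Fin.cases (motive := fun i => i < j → c s((Fin.cons v f : Fin (L + 1) → V) i,
        (Fin.cons v f : Fin (L + 1) → V) j) = (Fin.cons k κ : Fin (L + 1) → Fin q) i)
        ?_ (fun i => ?_) i hij
      · intro hj
        obtain ⟨j', rfl⟩ := Fin.exists_succ_eq.2 hj.ne'
        exact (hfm' j').2.2
      · intro hj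
        obtain ⟨j', rfl⟩ := Fin.exists_succ_eq.2 (ne_of_gt (lt_of_le_of_lt (Fin.zero_le _) hj))
        exact hκ i j' (Fin.succ_lt_succ_iff.1 hj)

/-- Ramsey's theorem: every finite graph has a Ramsey graph. -/
theorem exists_ram {α : Type} [Fintype α] {q : ℕ} (hq : 0 < q) (F : SimpleGraph α) :
    ∃ N : ℕ, Ram q F (⊤ : SimpleGraph (Fin N)) := by
  classical
  let n := Fintype.card α
  obtain ⟨N, hN⟩ := exists_seq hq (q * n)
  refine ⟨N, ?_⟩
  intro c
  obtain ⟨f, hf, -, κ, hκ⟩ := hN (Fin N) Finset.univ c (by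
    rw [Finset.card_univ, Fintype.card_fin])
  have hne : (Finset.univ : Finset (Fin q)).Nonempty := ⟨⟨0, hq⟩, Finset.mem_univ _⟩
  obtain ⟨k, -, hk⟩ := Finset.exists_le_card_fiber_of_mul_le_card_of_maps_to
      (s := (Finset.univ : Finset (Fin (q * n)))) (t := (Finset.univ : Finset (Fin q))) (f := κ)
      (n := n) (fun _ _ => Finset.mem_univ _) hne (by
        rw [Finset.card_univ, Fintype.card_fin, Finset.card_univ, Fintype.card_fin])
  let e := Finset.orderEmbOfCardLe _ hk
  have he : ∀ i, κ (e i) = k := fun i =>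
    (Finset.mem_filter.1 (Finset.orderEmbOfCardLe_mem _ hk i)).2
  let g : α ≃ Fin n := Fintype.equivFin α
  have hinj : Function.Injective (fun u => f (e (g u))) :=
    hf.comp (e.injective.comp g.injective)
  refine ⟨k, fun u => f (e (g u)), hinj, ?_⟩
  intro u v huv
  have hne2 : u ≠ v := huv.ne
  refine ⟨?_, ?_⟩
  · rw [SimpleGraph.top_adj]
    intro h
    exact hne2 (hinj h)
  · rcases lt_trichotomy (g u) (g v) with h | h | h
    · rw [hκ _ _ (e.strictMono h)]
      exact he _
    · exact absurd (g.injective h) hne2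
    · rw [Sym2.eq_swap, hκ _ _ (e.strictMono h)]
      exact he _

/-- There is a minimal Ramsey graph. -/
theorem exists_minimal {α : Type} [Fintype α] {q : ℕ} (hq : 0 < q) (F : SimpleGraph α) :
    ∃ (m : ℕ) (G : SimpleGraph (Fin m)), Ram q F G ∧
      ∀ G' : G.Subgraph, G' ≠ ⊤ → ¬ Ram q F G'.coe := by
  classical
  have hex : ∃ m : ℕ, ∃ G : SimpleGraph (Fin m), Ram q F G := by
    obtain ⟨N, hN⟩ := exists_ram hq F
    exact ⟨N, ⊤, hN⟩
  let m := Nat.find hex
  obtain ⟨G0, hG0⟩ := Nat.find_spec hex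
  have hfin : ({G : SimpleGraph (Fin m) | Ram q F G}).Finite := Set.toFinite _
  obtain ⟨G, hG⟩ := hfin.exists_minimal ⟨G0, hG0⟩
  refine ⟨m, G, hG.prop, ?_⟩
  intro G' hne hR
  by_cases hv : G'.verts = Set.univ
  · have h1 : Ram q F G'.spanningCoe := by
      apply ram_mono (fun x : G'.verts => x.1) Subtype.val_injective _ hR
      intro x y hxy
      exact hxy
    have h2 := hG.le_of_le h1 G'.spanningCoe_le
    apply hne
    apply Subgraph.ext hv
    funext x y
    apply propext
    constructor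
    · intro h
      exact h.adj_sub
    · intro h
      exact h2 h
  · have hlt : Fintype.card G'.verts < m := by
      obtain ⟨x, hx⟩ := (Set.ne_univ_iff_exists_notMem _).1 hv
      have h1 : Fintype.card G'.verts < Fintype.card (Fin m) := Fintype.card_subtype_lt hx
      rw [Fintype.card_fin] at h1
      exact h1
    apply Nat.find_min hex hlt
    let e : G'.verts ≃ Fin (Fintype.card G'.verts) := Fintype.equivFin G'.verts
    refine ⟨G'.coe.map e.toEmbedding, ?_⟩
    apply ram_mono e e.injective _ hR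
    intro x y hxy
    exact (SimpleGraph.map_adj _ _ _ _).2 ⟨x, y, hxy, rfl, rfl⟩

end Pool.Agent.H18.INS
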