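import Mathlib

/-!
Ramsey graphs for disjoint unions: a connected graph `F` every partition of which into `q+1`
independent classes and a rest has a copy of `J` in the rest has the same `q`-Ramsey graphs as the
disjoint union of `F` and `J`.
-/

set_option autoImplicit false

namespace Pool.Agent.H18.INS

open SimpleGraph

/-- A copy of `H` in `G` all of whose edges get colour `i`. -/
def IsCopy {α β : Type} {q : ℕ} (H : SimpleGraph α) (G : SimpleGraph β) (c : Sym2 β → Fin q)
    (i : Fin q) (f : α → β) : Prop :=
  Function.Injective f ∧ ∀ u v : α, H.Adj u v → G.Adj (f u) (f v) ∧ c s(f u, f v) = i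

/-- Every colouring of the pairs with `q` colours has a one-coloured copy. -/
def Ram {α β : Type} (q : ℕ) (H : SimpleGraph α) (G : SimpleGraph β) : Prop :=
  ∀ c : Sym2 β → Fin q, ∃ i : Fin q, ∃ f : α → β, IsCopy H G c i f

theorem ram_iff {α β : Type} {q : ℕ} (hq : 0 < q) (H : SimpleGraph α) (G : SimpleGraph β) :
    (∀ c : G.EdgeLabeling (Fin q), ∃ i : Fin q, H.IsContained (c.labelGraph i)) ↔ Ram q H G := by
  classical
  constructor
  · intro h c
    let c1 : G.EdgeLabeling (Fin q) := fun e => c e.1
    obtain ⟨i, ⟨f⟩⟩ := h c1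
    refine ⟨i, f, f.injective, ?_⟩
    intro u v huv
    have h1 : (c1.labelGraph i).Adj (f u) (f v) := f.toHom.map_adj huv
    rw [EdgeLabeling.labelGraph_adj] at h1
    obtain ⟨h2, h3⟩ := h1
    exact ⟨h2, h3⟩
  · intro h c
    obtain ⟨i, f, hf, hf2⟩ := h (fun e => if he : e ∈ G.edgeSet then c ⟨e, he⟩ else ⟨0, hq⟩)
    refine ⟨i, ⟨⟨⟨f, ?_⟩, hf⟩⟩⟩
    intro u v huv
    obtain ⟨h1, h2⟩ := hf2 u v huv
    rw [EdgeLabeling.labelGraph_adj]
    refine ⟨h1, ?_⟩
    have h3 : s(f u, f v) ∈ G.edgeSet := h1
    simp only [h3, dif_pos] at h2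
    exact h2

/-- A Ramsey graph stays one under an injective homomorphism. -/
theorem ram_mono {α β β' : Type} {q : ℕ} {H : SimpleGraph α} {G : SimpleGraph β}
    {G' : SimpleGraph β'} (ι : β → β') (hι : Function.Injective ι)
    (hadj : ∀ x y, G.Adj x y → G'.Adj (ι x) (ι y)) (h : Ram q H G) : Ram q H G' := by
  intro c
  obtain ⟨i, f, hf, hf2⟩ := h (fun e => c (e.map ι))
  refine ⟨i, fun u => ι (f u), hι.comp hf, ?_⟩
  intro u v huv
  obtain ⟨h1, h2⟩ := hf2 u v huv
  exact ⟨hadj _ _ h1, h2⟩

/-- Restriction to a smaller target. -/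
theorem ram_target {α α' β : Type} {q : ℕ} {H : SimpleGraph α} {H' : SimpleGraph α'}
    {G : SimpleGraph β} (ι : α' → α) (hι : Function.Injective ι)
    (hadj : ∀ x y, H'.Adj x y → H.Adj (ι x) (ι y)) (h : Ram q H G) : Ram q H' G := by
  intro c
  obtain ⟨i, f, hf, hf2⟩ := h c
  exact ⟨i, fun u => f (ι u), hf.comp hι, fun u v huv => hf2 _ _ (hadj _ _ huv)⟩

/-- The two-in-one recolouring argument. -/
theorem ram_sum {α γ : Type} [Fintype α] {q : ℕ} (hq : 2 ≤ q) {F : SimpleGraph α}
    {J : SimpleGraph γ}
    (hcard : q < Fintype.card α)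
    (hconn : ∀ (δ : Type) (p : α → δ), (∀ u v, F.Adj u v → p u = p v) → ∀ a b, p a = p b)
    (hrich : ∀ p : α → Option (Fin (q + 1)), (∀ u v, F.Adj u v → p u = p v → p u = none) →
      ∃ g : γ → α, Function.Injective g ∧ (∀ u v, J.Adj u v → F.Adj (g u) (g v)) ∧
        ∀ u, p (g u) = none)
    {β : Type} (G : SimpleGraph β) (hG : Ram q F G) : Ram q (F ⊕g J) G := by
  classical
  by_contra hcon
  unfold Ram at hcon
  push Not at hcon
  obtain ⟨c, hno⟩ := hcon
  let B : Set (Fin q) := {i | ∃ f : α → β, IsCopy F G c i f}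
  obtain ⟨b, f0, hf0⟩ := hG c
  have hb : b ∈ B := ⟨f0, hf0⟩
  have hch : ∀ i : Fin q, ∃ g : α → β, i ∈ B → IsCopy F G c i g := by
    intro i
    by_cases hi : i ∈ B
    · obtain ⟨g, hg⟩ := hi
      exact ⟨g, fun _ => hg⟩
    · exact ⟨f0, fun h => absurd h hi⟩
  choose g hg using hch
  let Out : Set β := {x | ∀ i, i ∈ B → x ∉ Set.range (g i)}
  have noJ : ∀ i, i ∈ B → ∀ k : γ → β, Function.Injective k →
      (∀ u v, J.Adj u v → G.Adj (k u) (k v) ∧ c s(k u, k v) = i) → (∀ u, k u ∈ Out) → False := by
    intro i hi k hk hk2 hk3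
    apply hno i (Sum.elim (g i) k)
    refine ⟨?_, ?_⟩
    · apply Function.Injective.sumElim (hg i hi).1 hk
      intro a b' hab
      exact hk3 b' i hi ⟨a, hab⟩
    · rintro (u | u) (v | v) huv
      · rw [sum_adj_inl] at huv
        exact (hg i hi).2 u v huv
      · exact absurd huv (by simp)
      · exact absurd huv (by simp)
      · rw [sum_adj_inr] at huv
        exact hk2 u v huv
  obtain ⟨a, hab⟩ : ∃ a : Fin q, a ≠ b := by
    have : Nontrivial (Fin q) := Fin.nontrivial_iff_two_le.2 hq
    exact exists_ne b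
  have hposα : 0 < Fintype.card α := by omega
  obtain ⟨z0⟩ : Nonempty α := Fintype.card_pos_iff.1 hposα
  let L : Finset β := Finset.univ.image (fun i : Fin q => g i z0)
  let p : β → Option (Fin (q + 1)) := fun x =>
    if x ∈ L then some (Fin.last q) else
      if h : ∃ i, i ∈ B ∧ x ∈ Set.range (g i) then some (Fin.castSucc h.choose) else none
  have hpnone : ∀ x, p x = none → x ∈ Out := by
    intro x hx i hi hxi
    simp only [p] at hx
    split_ifs at hx with h1 h2
    exact h2 ⟨i, hi, hxi⟩
  have hplast : ∀ x, p x = some (Fin.last q) → x ∈ L := by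
    intro x hx
    simp only [p] at hx
    split_ifs at hx with h1 h2
    · exact h1
    · simp only [Option.some.injEq] at hx
      exact absurd hx (Fin.castSucc_ne_last _)
  have hpcast : ∀ x (i : Fin q), p x = some (Fin.castSucc i) →
      i ∈ B ∧ x ∈ Set.range (g i) ∧ x ≠ g i z0 := by
    intro x i hx
    simp only [p] at hx
    split_ifs at hx with h1 h2
    · simp only [Option.some.injEq] at hx
      exact absurd hx.symm (Fin.castSucc_ne_last _)
    · simp only [Option.some.injEq] at hx
      have h3 : h2.choose = i := Fin.castSucc_injective _ hx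
      have h4 := h2.choose_spec
      rw [h3] at h4
      refine ⟨h4.1, h4.2, ?_⟩
      intro h5
      apply h1
      rw [h5]
      exact Finset.mem_image_of_mem _ (Finset.mem_univ i)
  let c' : Sym2 β → Fin q := Sym2.lift ⟨fun x y =>
    if p x = p y then (if p x = none then c s(x, y) else a) else b, by
      intro x y
      by_cases h : p x = p y
      · simp only [h, if_true]
        rw [Sym2.eq_swap]
      · have h' : ¬ p y = p x := fun h2 => h h2.symm
        simp only [h, h', if_false]⟩
  have hc'1 : ∀ x y, p x ≠ p y → c' s(x, y) = b := by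
    intro x y h
    simp only [c', Sym2.lift_mk]
    rw [if_neg h]
  have hc'2 : ∀ x y, p x = p y → p x ≠ none → c' s(x, y) = a := by
    intro x y h h2
    simp only [c', Sym2.lift_mk]
    rw [if_pos h, if_neg h2]
  have hc'3 : ∀ x y, p x = none → p y = none → c' s(x, y) = c s(x, y) := by
    intro x y h h2
    simp only [c', Sym2.lift_mk]
    rw [if_pos (h.trans h2.symm), if_pos h]
  obtain ⟨j, f, hf, hf2⟩ := hG c'
  by_cases hjb : j = b
  · subst hjb
    obtain ⟨k, hk1, hk2, hk3⟩ := hrich (fun u => p (f u)) (by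
      intro u v huv hp
      by_contra hne
      have h1 := (hf2 u v huv).2
      rw [hc'2 _ _ hp hne] at h1
      exact hab h1)
    apply noJ j hb (fun u => f (k u)) (hf.comp hk1)
    · intro u v huv
      have h1 := hf2 _ _ (hk2 u v huv)
      refine ⟨h1.1, ?_⟩
      rw [← hc'3 _ _ (hk3 u) (hk3 v)]
      exact h1.2
    · intro u
      exact hpnone _ (hk3 u)
  · have hconst : ∀ u v, p (f u) = p (f v) := by
      apply hconn _ (fun u => p (f u))
      intro u v huv
      by_contra hne
      have h1 := (hf2 u v huv).2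
      rw [hc'1 _ _ hne] at h1
      exact hjb h1.symm
    have hcardf : (Finset.univ.image f).card = Fintype.card α := by
      rw [Finset.card_image_of_injective _ hf, Finset.card_univ]
    rcases hpz : p (f z0) with _ | r
    · have hall : ∀ u, p (f u) = none := fun u => (hconst u z0).trans hpz
      have hj : j ∈ B := by
        refine ⟨f, hf, ?_⟩
        intro u v huv
        have h1 := hf2 u v huv
        refine ⟨h1.1, ?_⟩
        rw [← hc'3 _ _ (hall u) (hall v)]
        exact h1.2
      obtain ⟨k, hk1, hk2, hk3⟩ := hrich (fun _ => none) (fun _ _ _ _ => rfl)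
      apply noJ j hj (fun u => f (k u)) (hf.comp hk1)
      · intro u v huv
        have h1 := hf2 _ _ (hk2 u v huv)
        refine ⟨h1.1, ?_⟩
        rw [← hc'3 _ _ (hall _) (hall _)]
        exact h1.2
      · intro u
        exact hpnone _ (hall _)
    · have hall : ∀ u, p (f u) = some r := fun u => (hconst u z0).trans hpz
      refine Fin.lastCases ?_ (fun i => ?_) r (motive := fun r => (∀ u, p (f u) = some r) → False)
        hall
      · intro hall
        have hsub : Finset.univ.image f ⊆ L := by
          intro x hx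
          obtain ⟨u, -, rfl⟩ := Finset.mem_image.1 hx
          exact hplast _ (hall u)
        have h1 := Finset.card_le_card hsub
        have h2 : L.card ≤ q := by
          have h3 : L.card ≤ (Finset.univ : Finset (Fin q)).card := Finset.card_image_le
          rw [Finset.card_univ, Fintype.card_fin] at h3
          exact h3
        omega
      · intro hall
        have hi := (hpcast _ _ (hall z0)).1
        have hsub : Finset.univ.image f ⊆ (Finset.univ.image (g i)).erase (g i z0) := by
          intro x hx
          obtain ⟨u, -, rfl⟩ := Finset.mem_image.1 hx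
          obtain ⟨-, ⟨w, hw⟩, h3⟩ := hpcast _ _ (hall u)
          rw [Finset.mem_erase]
          exact ⟨h3, Finset.mem_image.2 ⟨w, Finset.mem_univ _, hw⟩⟩
        have h1 := Finset.card_le_card hsub
        rw [Finset.card_erase_of_mem (Finset.mem_image_of_mem _ (Finset.mem_univ _)),
          Finset.card_image_of_injective _ (hg i hi).1, Finset.card_univ] at h1
        omega

end Pool.Agent.H18.INS
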